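import Mathlib

/-!
# Points over a Noether normalization

A prime ideal `p` of `ℂ[x_1, ..., x_m]` and a Noether normalization `ℂ[y_1, ..., y_s] → ℂ[x]/p`.
-/

open MvPolynomial

namespace Pool.Agent.Loj

variable {m : ℕ}

theorem eval_aeval' {s : ℕ} (Y : Fin s → MvPolynomial (Fin m) ℂ) (z : Fin m → ℂ)
    (q : MvPolynomial (Fin s) ℂ) : eval z (aeval Y q) = eval (fun j => eval z (Y j)) q := by
  induction q using MvPolynomial.induction_on with
  | C a => simp
  | add p q hp hq => rw [map_add, map_add, map_add, hp, hq]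
  | mul_X p i hp => rw [map_mul, map_mul, map_mul, hp, aeval_X, eval_X]

/-- the value of `P (l)` at `x` -/
theorem eval_eval2 {s : ℕ} (Y : Fin s → MvPolynomial (Fin m) ℂ)
    (P : Polynomial (MvPolynomial (Fin s) ℂ)) (l : MvPolynomial (Fin m) ℂ) (x : Fin m → ℂ) :
    eval x (P.eval₂ (aeval Y : MvPolynomial (Fin s) ℂ →ₐ[ℂ] MvPolynomial (Fin m) ℂ).toRingHom l) =
      (P.map (eval fun j => eval x (Y j))).eval (eval x l) := by
  rw [Polynomial.hom_eval₂, Polynomial.eval_map]
  congr 1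
  exact RingHom.ext fun q => eval_aeval' Y x q

/-- **Points over a Noether normalization.** -/
theorem exists_norm (p : Ideal (MvPolynomial (Fin m) ℂ)) (hp : p.IsPrime) :
    ∃ (s : ℕ) (Y : Fin s → MvPolynomial (Fin m) ℂ), ∀ l : MvPolynomial (Fin m) ℂ,
      ∃ P : Polynomial (MvPolynomial (Fin s) ℂ), P.Monic ∧ 0 < P.natDegree ∧
        P.eval₂ (aeval Y : MvPolynomial (Fin s) ℂ →ₐ[ℂ] MvPolynomial (Fin m) ℂ).toRingHom l ∈ p ∧
        ∀ (y : Fin s → ℂ) (r : ℂ), (P.map (eval y)).eval r = 0 →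
          ∃ z, (∀ q ∈ p, eval z q = 0) ∧ (∀ j, eval z (Y j) = y j) ∧ eval z l = r := by
  obtain ⟨s, -, g, hg, hgi⟩ := exists_integral_inj_algHom_of_quotient p hp.ne_top
  have hY : ∀ j, ∃ Yj, Ideal.Quotient.mk p Yj = g (X j) := fun j =>
    Ideal.Quotient.mk_surjective _
  choose Y hY using hY
  have hgY : ∀ q, g q = Ideal.Quotient.mk p (aeval Y q) := by
    intro q
    have : g = (Ideal.Quotient.mkₐ ℂ p).comp (aeval Y) := by
      apply MvPolynomial.algHom_ext
      intro j
      simp [hY j]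
    rw [this]
    rfl
  refine ⟨s, Y, fun l => ?_⟩
  let : Algebra (MvPolynomial (Fin s) ℂ) (MvPolynomial (Fin m) ℂ ⧸ p) := g.toRingHom.toAlgebra
  have halg : algebraMap (MvPolynomial (Fin s) ℂ) (MvPolynomial (Fin m) ℂ ⧸ p) = g.toRingHom := rfl
  have : Algebra.IsIntegral (MvPolynomial (Fin s) ℂ) (MvPolynomial (Fin m) ℂ ⧸ p) := ⟨hgi⟩
  have : IsDomain (MvPolynomial (Fin m) ℂ ⧸ p) := Ideal.Quotient.isDomain p
  have : FaithfulSMul (MvPolynomial (Fin s) ℂ) (MvPolynomial (Fin m) ℂ ⧸ p) := by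
    rw [faithfulSMul_iff_algebraMap_injective]
    exact hg
  have : Module.IsTorsionFree (MvPolynomial (Fin s) ℂ) (MvPolynomial (Fin m) ℂ ⧸ p) := inferInstance
  set b : MvPolynomial (Fin m) ℂ ⧸ p := Ideal.Quotient.mk p l with hb
  have hbi : IsIntegral (MvPolynomial (Fin s) ℂ) b := Algebra.IsIntegral.isIntegral b
  have hmk : ∀ q : Polynomial (MvPolynomial (Fin s) ℂ), Polynomial.aeval b q =
      Ideal.Quotient.mk p (q.eval₂ (aeval Y : MvPolynomial (Fin s) ℂ →ₐ[ℂ]
        MvPolynomial (Fin m) ℂ).toRingHom l) := by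
    intro q
    rw [Polynomial.hom_eval₂, Polynomial.aeval_def, halg]
    congr 1
    exact RingHom.ext hgY
  refine ⟨minpoly _ b, minpoly.monic hbi, minpoly.natDegree_pos hbi, ?_, ?_⟩
  · rw [← Ideal.Quotient.eq_zero_iff_mem, ← hmk, minpoly.aeval]
  · intro y r hr
    let : Algebra (Polynomial (MvPolynomial (Fin s) ℂ)) (MvPolynomial (Fin m) ℂ ⧸ p) :=
      (Polynomial.aeval b).toRingHom.toAlgebra
    have halg' : ∀ q, algebraMap (Polynomial (MvPolynomial (Fin s) ℂ))
      (MvPolynomial (Fin m) ℂ ⧸ p) q = Polynomial.aeval b q := fun _ => rfl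
    have : IsScalarTower (MvPolynomial (Fin s) ℂ) (Polynomial (MvPolynomial (Fin s) ℂ))
        (MvPolynomial (Fin m) ℂ ⧸ p) := by
      apply IsScalarTower.of_algebraMap_eq
      intro q
      rw [halg', Polynomial.algebraMap_apply]
      simp
    have : Algebra.IsIntegral (Polynomial (MvPolynomial (Fin s) ℂ))
        (MvPolynomial (Fin m) ℂ ⧸ p) :=
      ⟨fun c => (Algebra.IsIntegral.isIntegral (R := MvPolynomial (Fin s) ℂ) c).tower_top⟩
    set e : Polynomial (MvPolynomial (Fin s) ℂ) →+* ℂ := Polynomial.eval₂RingHom (eval y) r with he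
    have hes : Function.Surjective e := by
      intro c
      refine ⟨Polynomial.C (C c), ?_⟩
      simp [he]
    have hm : (RingHom.ker e).IsMaximal := RingHom.ker_isMaximal_of_surjective e hes
    obtain ⟨Q, hQm, hQ⟩ := Ideal.exists_ideal_over_maximal_of_isIntegral
      (S := MvPolynomial (Fin m) ℂ ⧸ p) (RingHom.ker e) (by
        intro q hq
        rw [RingHom.mem_ker, halg'] at hq
        obtain ⟨q', rfl⟩ := minpoly.isIntegrallyClosed_dvd hbi hq
        rw [RingHom.mem_ker, map_mul]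
        have : e (minpoly (MvPolynomial (Fin s) ℂ) b) = 0 := by
          rw [← hr, he, Polynomial.coe_eval₂RingHom, Polynomial.eval_map]
        rw [this, zero_mul])
    have : (Q.comap (Ideal.Quotient.mk p)).IsMaximal :=
      Ideal.comap_isMaximal_of_surjective _ Ideal.Quotient.mk_surjective
    obtain ⟨z, hz⟩ := MvPolynomial.isMaximal_iff_eq_vanishingIdeal_singleton.1 this
    have hz' : ∀ q, Ideal.Quotient.mk p q ∈ Q → eval z q = 0 := by
      intro q hq
      have : q ∈ Q.comap (Ideal.Quotient.mk p) := hq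
      rw [hz, MvPolynomial.mem_vanishingIdeal_singleton_iff] at this
      exact this
    have hQ' : ∀ q : Polynomial (MvPolynomial (Fin s) ℂ), e q = 0 →
        eval z (q.eval₂ (aeval Y : MvPolynomial (Fin s) ℂ →ₐ[ℂ]
          MvPolynomial (Fin m) ℂ).toRingHom l) = 0 := by
      intro q hq
      apply hz'
      rw [← hmk, ← halg', ← Ideal.mem_comap, hQ]
      exact hq
    refine ⟨z, fun q hq => hz' q ?_, fun j => ?_, ?_⟩
    · rw [Ideal.Quotient.eq_zero_iff_mem.2 hq]
      exact Q.zero_mem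
    · have := hQ' (Polynomial.C (X j - C (y j))) (by simp [he])
      simpa [sub_eq_zero] using this
    · have := hQ' (Polynomial.X - Polynomial.C (C r)) (by simp [he])
      simpa [sub_eq_zero] using this

end Pool.Agent.Loj
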