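import Pool.Agent.Work.MP_a2bf38_gt.J.LojA

/-!
# The Łojasiewicz inequality for complex polynomials

`LP I` : there are finitely many elements `h t` of the ideal `I` such that a point `x` with
`|h t (x)| ≤ ε ^ d` for all `t` is at distance at most `C ε` from a common zero of `I`.
-/

open MvPolynomial

namespace Pool.Agent.Loj

variable {m : ℕ}

/-- The Łojasiewicz inequality for the ideal `I`. -/
def LP (I : Ideal (MvPolynomial (Fin m) ℂ)) : Prop :=
  ∃ (T : ℕ) (h : Fin T → MvPolynomial (Fin m) ℂ) (C : ℝ) (d : ℕ), 0 ≤ C ∧ (∀ t, h t ∈ I) ∧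
    ∀ (x : Fin m → ℂ) (ε : ℝ), 0 < ε → ε ≤ 1 → (∀ t, ‖eval x (h t)‖ ≤ ε ^ d) →
      ∃ z : Fin m → ℂ, (∀ p ∈ I, eval z p = 0) ∧ ‖x - z‖ ≤ C * ε

/-- a monic polynomial which is small at `w` has a root near `w` -/
theorem exists_root_near (Q : Polynomial ℂ) (hQ : Q.Monic) (hd : 0 < Q.natDegree) (w : ℂ) (ε : ℝ)
    (hε : 0 < ε) (h : ‖Q.eval w‖ ≤ ε ^ Q.natDegree) : ∃ r, Q.eval r = 0 ∧ ‖w - r‖ ≤ ε := by
  by_contra hne
  push Not at hne
  have hs := IsAlgClosed.splits Q
  have hprod : Q = (Q.roots.map fun a => Polynomial.X - Polynomial.C a).prod := by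
    conv_lhs => rw [hs.eq_prod_roots]
    simp [hQ.leadingCoeff]
  have hcard : Q.roots.card = Q.natDegree := hs.natDegree_eq_card_roots.symm
  have heval : ‖Q.eval w‖ = (Q.roots.map fun a => ‖w - a‖).prod := by
    conv_lhs => rw [hprod]
    rw [Polynomial.eval_multiset_prod, Multiset.map_map]
    have : ∀ s : Multiset ℂ, ‖(s.map ((Polynomial.eval w) ∘ fun a => Polynomial.X -
        Polynomial.C a)).prod‖ = (s.map fun a => ‖w - a‖).prod := by
      intro s
      induction s using Multiset.induction_on with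
      | empty => simp
      | cons a s ih => 
        rw [Multiset.map_cons, Multiset.map_cons, Multiset.prod_cons, Multiset.prod_cons, norm_mul,
          ih]
        simp
    exact this _
  have key : ∀ s : Multiset ℂ, (∀ a ∈ s, ε < ‖w - a‖) → s ≠ 0 →
      ε ^ s.card < (s.map fun a => ‖w - a‖).prod := by
    intro s
    induction s using Multiset.induction_on with
    | empty => intro _ h; exact absurd rfl h
    | cons a s ih =>
      intro h1 _
      rw [Multiset.map_cons, Multiset.prod_cons, Multiset.card_cons, pow_succ]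
      have ha := h1 a (Multiset.mem_cons_self a s)
      by_cases hs : s = 0
      · subst hs; simpa using ha
      · have := ih (fun b hb => h1 b (Multiset.mem_cons_of_mem hb)) hs
        have h0 : 0 < ε ^ s.card := pow_pos hε _
        rw [mul_comm]
        exact mul_lt_mul'' ha this hε.le h0.le
  have := key Q.roots (fun a ha => hne a (Polynomial.isRoot_of_mem_roots ha)) (by
    intro h0
    rw [h0] at hcard
    simp at hcard
    omega)
  rw [hcard, ← heval] at this
  exact absurd h (not_le.2 this)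

/-- the coefficients of a polynomial of degree `< m` are bounded by its values at `m` points -/
theorem exists_coeff_bound (m N : ℕ) : ∃ C : ℝ, 0 ≤ C ∧ ∀ (v : Fin m → ℂ) (ε : ℝ)
    (s : Finset (Fin N)), m ≤ s.card → 
    (∀ t ∈ s, ‖∑ i : Fin m, v i * ((t : ℕ) : ℂ) ^ (i : ℕ)‖ ≤ ε) → ‖v‖ ≤ C * ε := by
  classical
  set nd : Fin N → ℂ := fun t => ((t : ℕ) : ℂ) with hnd
  have hinj : Function.Injective nd := by
    intro a b hab
    simp only [hnd, Nat.cast_inj] at hab
    exact Fin.ext hab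
  refine ⟨∑ s : Finset (Fin N), ∑ t ∈ s, ∑ j : Fin m, ‖(Lagrange.basis s nd t).coeff j‖,
    Finset.sum_nonneg fun _ _ => Finset.sum_nonneg fun _ _ => Finset.sum_nonneg fun _ _ =>
      norm_nonneg _, ?_⟩
  intro v ε s hs hv
  have hC : 0 ≤ ∑ s : Finset (Fin N), ∑ t ∈ s, ∑ j : Fin m, ‖(Lagrange.basis s nd t).coeff j‖ :=
    Finset.sum_nonneg fun _ _ => Finset.sum_nonneg fun _ _ => Finset.sum_nonneg fun _ _ =>
      norm_nonneg _
  rcases Nat.eq_zero_or_pos m with rfl | hm
  · have hv0 : v = 0 := Subsingleton.elim _ _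
    subst hv0
    simp
  have hsne : s.Nonempty := by
    rw [← Finset.card_pos]; omega
  have hε : 0 ≤ ε := by
    obtain ⟨t, ht⟩ := hsne
    exact (norm_nonneg _).trans (hv t ht)
  set V : Polynomial ℂ := ∑ i : Fin m, Polynomial.C (v i) * Polynomial.X ^ (i : ℕ) with hV
  have hdeg : V.degree < s.card := by
    refine lt_of_lt_of_le ?_ (Nat.cast_le.2 hs : ((m : ℕ) : WithBot ℕ) ≤ (s.card : WithBot ℕ))
    refine (Polynomial.degree_sum_le _ _).trans_lt ?_
    rw [Finset.sup_lt_iff (by exact WithBot.bot_lt_coe m)]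
    intro i _
    exact (Polynomial.degree_C_mul_X_pow_le _ _).trans_lt (Nat.cast_lt.2 i.2)
  have hcoeff : ∀ j : Fin m, V.coeff j = v j := by
    intro j
    rw [hV, Polynomial.finsetSum_coeff, Finset.sum_eq_single j]
    · simp
    · intro b _ hb
      rw [Polynomial.coeff_C_mul_X_pow, if_neg]
      intro h
      exact hb (Fin.ext h.symm)
    · simp
  have heval : ∀ t : Fin N, V.eval (nd t) = ∑ i : Fin m, v i * ((t : ℕ) : ℂ) ^ (i : ℕ) := by
    intro t
    rw [hV, Polynomial.eval_finsetSum]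
    simp [hnd]
  have hint := Lagrange.eq_interpolate_of_eval_eq (s := s) (v := nd) (f := V)
    (fun t => V.eval (nd t)) (hinj.injOn) hdeg (fun t _ => rfl)
  rw [pi_norm_le_iff_of_nonneg (mul_nonneg hC hε)]
  intro j
  have : v j = ∑ t ∈ s, V.eval (nd t) * (Lagrange.basis s nd t).coeff j := by
    rw [← hcoeff j]
    conv_lhs => rw [hint]
    rw [Lagrange.interpolate_apply, Polynomial.finsetSum_coeff]
    simp only [Polynomial.coeff_C_mul]
  rw [this]
  calc ‖∑ t ∈ s, V.eval (nd t) * (Lagrange.basis s nd t).coeff j‖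
      ≤ ∑ t ∈ s, ε * ‖(Lagrange.basis s nd t).coeff j‖ := by
        refine norm_sum_le_of_le _ fun t ht => ?_
        rw [norm_mul]
        refine mul_le_mul_of_nonneg_right ?_ (norm_nonneg _)
        rw [heval]
        exact hv t ht
    _ ≤ ∑ t ∈ s, ∑ j : Fin m, ε * ‖(Lagrange.basis s nd t).coeff j‖ := by
        refine Finset.sum_le_sum fun t _ => ?_
        exact Finset.single_le_sum (f := fun j : Fin m => ε * ‖(Lagrange.basis s nd t).coeff j‖)
          (fun _ _ => mul_nonneg hε (norm_nonneg _)) (Finset.mem_univ j)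
    _ = (∑ t ∈ s, ∑ j : Fin m, ‖(Lagrange.basis s nd t).coeff j‖) * ε := by
        rw [Finset.sum_mul]
        refine Finset.sum_congr rfl fun t _ => ?_
        rw [Finset.sum_mul]
        exact Finset.sum_congr rfl fun _ _ => mul_comm _ _
    _ ≤ _ := by
        refine mul_le_mul_of_nonneg_right ?_ hε
        exact Finset.single_le_sum (f := fun s : Finset (Fin N) => 
          ∑ t ∈ s, ∑ j : Fin m, ‖(Lagrange.basis s nd t).coeff j‖)
          (fun _ _ => Finset.sum_nonneg fun _ _ => Finset.sum_nonneg fun _ _ => norm_nonneg _)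
          (Finset.mem_univ s)

/-- the linear form `∑ t ^ i x_i` -/
noncomputable def lform (m t : ℕ) : MvPolynomial (Fin m) ℂ :=
  ∑ i : Fin m, C ((t : ℂ) ^ (i : ℕ)) * X i

theorem eval_lform (t : ℕ) (x : Fin m → ℂ) :
    eval x (lform m t) = ∑ i : Fin m, x i * (t : ℂ) ^ (i : ℕ) := by
  simp [lform, mul_comm]

/-- **The Łojasiewicz inequality for a prime ideal.** -/
theorem LP_prime (p : Ideal (MvPolynomial (Fin m) ℂ)) (hp : p.IsPrime) : LP p := by
  classical
  obtain ⟨s, Y, hY⟩ := exists_norm p hp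
  choose P hmon hdeg hmem hroot using hY
  set D : ℕ := ∏ i : Fin m, (P (X i)).natDegree with hD
  set N : ℕ := D * m + 1 with hN
  obtain ⟨C, hC, hbd⟩ := exists_coeff_bound m N
  refine ⟨N, fun t => (P (lform m t)).eval₂ (aeval Y : MvPolynomial (Fin s) ℂ →ₐ[ℂ]
    MvPolynomial (Fin m) ℂ).toRingHom (lform m t), C, ∑ t : Fin N, (P (lform m t)).natDegree, hC,
    fun t => hmem _, ?_⟩
  intro x ε hε hε1 hx
  set y : Fin s → ℂ := fun j => eval x (Y j) with hy
  have hz : ∀ t : Fin N, ∃ z, (∀ q ∈ p, eval z q = 0) ∧ (∀ j, eval z (Y j) = y j) ∧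
      ‖eval x (lform m t) - eval z (lform m t)‖ ≤ ε := by
    intro t
    have hm' : ((P (lform m t)).map (eval y)).Monic := (hmon _).map _
    have hnd : ((P (lform m t)).map (eval y)).natDegree = (P (lform m t)).natDegree :=
      (hmon _).natDegree_map _
    obtain ⟨r, hr, hr'⟩ := exists_root_near ((P (lform m t)).map (eval y)) hm'
      (by rw [hnd]; exact hdeg _) (eval x (lform m t)) ε hε (by
        rw [← eval_eval2, hnd]
        refine (hx t).trans (pow_le_pow_of_le_one hε.le hε1 ?_)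
        exact Finset.single_le_sum (f := fun t : Fin N => (P (lform m t)).natDegree)
          (fun _ _ => Nat.zero_le _) (Finset.mem_univ t))
    obtain ⟨z, h1, h2, h3⟩ := hroot _ y r hr
    exact ⟨z, h1, h2, by rw [h3]; exact hr'⟩
  choose z hz1 hz2 hz3 using hz
  set B : Finset (Fin m → ℂ) := Fintype.piFinset fun i =>
    ((P (X i)).map (eval y)).roots.toFinset with hB
  have hzB : ∀ t, z t ∈ B := by
    intro t
    rw [hB, Fintype.mem_piFinset]
    intro i
    rw [Multiset.mem_toFinset, Polynomial.mem_roots ((hmon _).map _).ne_zero, Polynomial.IsRoot]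
    have h1 := hz1 t _ (hmem (X i))
    rw [eval_eval2] at h1
    have h2 : (fun j => eval (z t) (Y j)) = y := funext (hz2 t)
    rw [h2, eval_X] at h1
    exact h1
  have hBc : B.card ≤ D := by
    rw [hB, Fintype.card_piFinset, hD]
    refine Finset.prod_le_prod (fun _ _ => Nat.zero_le _) fun i _ => ?_
    refine (Multiset.toFinset_card_le _).trans ?_
    refine (Polynomial.card_roots' _).trans ?_
    exact Polynomial.natDegree_map_le
  obtain ⟨z₀, -, hz₀⟩ := Finset.exists_lt_card_fiber_of_mul_lt_card_of_maps_to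
    (s := (Finset.univ : Finset (Fin N))) (t := B) (f := z) (n := m) (fun t _ => hzB t) (by
      rw [Finset.card_univ, Fintype.card_fin, hN]
      exact Nat.lt_succ_of_le (Nat.mul_le_mul_right m hBc))
  obtain ⟨t₀, ht₀⟩ : (Finset.univ.filter fun t => z t = z₀).Nonempty := by
    rw [← Finset.card_pos]; omega
  rw [Finset.mem_filter] at ht₀
  refine ⟨z₀, fun q hq => ht₀.2 ▸ hz1 t₀ q hq, ?_⟩
  refine hbd (x - z₀) ε _ hz₀.le fun t ht => ?_
  rw [Finset.mem_filter] at ht
  have := hz3 t
  rw [ht.2, eval_lform, eval_lform, ← Finset.sum_sub_distrib] at this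
  simpa [sub_mul] using this

/-- **The Łojasiewicz inequality for an ideal of polynomials.** -/
theorem LP_all (I : Ideal (MvPolynomial (Fin m) ℂ)) : LP I := by
  classical
  revert I
  refine fun I => IsNoetherian.induction (P := fun I : Ideal (MvPolynomial (Fin m) ℂ) => LP I)
    (fun (I : Ideal (MvPolynomial (Fin m) ℂ)) ih => ?_) I
  · by_cases hp : I.IsPrime
    · exact LP_prime I hp
    rcases Ideal.not_isPrime_iff.1 hp with htop | ⟨a, ha, b, hb, hab⟩
    · refine ⟨1, fun _ => 2, 0, 1, le_rfl, fun _ => by rw [htop]; exact Submodule.mem_top, ?_⟩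
      intro x ε hε hε1 h
      have := h 0
      simp only [map_ofNat, pow_one] at this
      norm_num at this
      linarith
    have hIa : I < I ⊔ Ideal.span {a} := by
      rw [left_lt_sup, Ideal.span_singleton_le_iff_mem]; exact ha
    have hIb : I < I ⊔ Ideal.span {b} := by
      rw [left_lt_sup, Ideal.span_singleton_le_iff_mem]; exact hb
    obtain ⟨T₁, h₁, C₁, d₁, hC₁, hm₁, H₁⟩ := ih _ hIa
    obtain ⟨T₂, h₂, C₂, d₂, hC₂, hm₂, H₂⟩ := ih _ hIb
    refine ⟨T₁ * T₂, fun t => h₁ (finProdFinEquiv.symm t).1 * h₂ (finProdFinEquiv.symm t).2,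
      max C₁ C₂, d₁ + d₂, le_max_of_le_left hC₁, fun t => ?_, ?_⟩
    · have hle : (I ⊔ Ideal.span {a}) * (I ⊔ Ideal.span {b}) ≤ I := by
        rw [Ideal.sup_mul, Ideal.mul_sup, Ideal.mul_sup, Ideal.span_singleton_mul_span_singleton]
        refine sup_le (sup_le (Ideal.mul_le_inf.trans inf_le_left)
          (Ideal.mul_le_inf.trans inf_le_left)) (sup_le (Ideal.mul_le_inf.trans inf_le_right) ?_)
        rw [Ideal.span_singleton_le_iff_mem]
        exact hab
      exact hle (Ideal.mul_mem_mul (hm₁ _) (hm₂ _))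
    · intro x ε hε hε1 hx
      by_cases hall : ∀ t, ‖eval x (h₁ t)‖ ≤ ε ^ d₁
      · obtain ⟨z, hz, hz'⟩ := H₁ x ε hε hε1 hall
        refine ⟨z, fun p hp => hz p (hIa.le hp), hz'.trans ?_⟩
        exact mul_le_mul_of_nonneg_right (le_max_left _ _) hε.le
      · push Not at hall
        obtain ⟨t₁, ht₁⟩ := hall
        have : ∀ t, ‖eval x (h₂ t)‖ ≤ ε ^ d₂ := by
          intro t
          have h := hx (finProdFinEquiv (t₁, t))
          simp only [Equiv.symm_apply_apply, map_mul, norm_mul, pow_add] at h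
          by_contra hcon
          push Not at hcon
          have := mul_lt_mul'' ht₁ hcon (pow_nonneg hε.le _) (pow_nonneg hε.le _)
          linarith
        obtain ⟨z, hz, hz'⟩ := H₂ x ε hε hε1 this
        refine ⟨z, fun p hp => hz p (hIb.le hp), hz'.trans ?_⟩
        exact mul_le_mul_of_nonneg_right (le_max_right _ _) hε.le

/-- **The Łojasiewicz inequality for finitely many polynomials**, on a ball. -/
theorem loj_poly {ι : Type} [Fintype ι] (F : ι → MvPolynomial (Fin m) ℂ) (R : ℝ) :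
    ∃ (C : ℝ) (d : ℕ), 0 < C ∧ ∀ x : Fin m → ℂ, ‖x‖ ≤ R → ∀ ε : ℝ, 0 < ε → ε ≤ 1 →
      (∀ i, C * ‖eval x (F i)‖ ≤ ε ^ d) →
      ∃ z : Fin m → ℂ, (∀ i, eval z (F i) = 0) ∧ ‖x - z‖ ≤ C * ε := by
  classical
  obtain ⟨T, h, C, d, hC, hmem, H⟩ := LP_all (Ideal.span (Set.range F))
  have hc : ∀ t, ∃ c : ι → MvPolynomial (Fin m) ℂ, ∑ i, c i * F i = h t := by
    intro t
    exact (Ideal.mem_span_range_iff_exists_fun).1 (hmem t)
  choose c hc using hc
  have hK : ∀ t i, ∃ K : ℝ, ∀ x : Fin m → ℂ, ‖x‖ ≤ R → ‖eval x (c t i)‖ ≤ K := by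
    intro t i
    have hcont : Continuous fun x : Fin m → ℂ => eval x (c t i) := MvPolynomial.continuous_eval _
    obtain ⟨K, hK⟩ := (isCompact_closedBall (0 : Fin m → ℂ) R).exists_bound_of_continuousOn
      hcont.continuousOn
    exact ⟨K, fun x hx => hK x (by simpa using hx)⟩
  choose K hK using hK
  set K' : ℝ := ∑ t, ∑ i, |K t i| with hK'
  have hK0 : 0 ≤ K' := Finset.sum_nonneg fun _ _ => Finset.sum_nonneg fun _ _ => abs_nonneg _
  refine ⟨max (K' + 1) C, d, lt_max_of_lt_left (by linarith), ?_⟩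
  intro x hx ε hε hε1 hF
  have hpos : 0 < max (K' + 1) C := lt_max_of_lt_left (by linarith)
  have hδ : ∀ i, ‖eval x (F i)‖ ≤ ε ^ d / max (K' + 1) C := by
    intro i
    rw [le_div_iff₀ hpos, mul_comm]
    exact hF i
  obtain ⟨z, hz, hz'⟩ := H x ε hε hε1 (fun t => by
    rw [← hc t, map_sum]
    have h0 : 0 ≤ ε ^ d / max (K' + 1) C := by positivity
    calc ‖∑ i, eval x (c t i * F i)‖ ≤ ∑ i, |K t i| * (ε ^ d / max (K' + 1) C) := by
          refine norm_sum_le_of_le _ fun i _ => ?_
          rw [map_mul, norm_mul]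
          exact mul_le_mul ((hK t i x hx).trans (le_abs_self _)) (hδ i) (norm_nonneg _)
            (abs_nonneg _)
      _ = (∑ i, |K t i|) * (ε ^ d / max (K' + 1) C) := by rw [Finset.sum_mul]
      _ ≤ K' * (ε ^ d / max (K' + 1) C) := by
          refine mul_le_mul_of_nonneg_right ?_ h0
          exact Finset.single_le_sum (f := fun t => ∑ i, |K t i|)
            (fun _ _ => Finset.sum_nonneg fun _ _ => abs_nonneg _) (Finset.mem_univ t)
      _ ≤ max (K' + 1) C * (ε ^ d / max (K' + 1) C) := by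
          refine mul_le_mul_of_nonneg_right ?_ h0
          exact le_max_of_le_left (by linarith)
      _ = ε ^ d := by field_simp)
  refine ⟨z, fun i => hz _ (Ideal.subset_span ⟨i, rfl⟩), hz'.trans ?_⟩
  exact mul_le_mul_of_nonneg_right (le_max_right _ _) hε.le

end Pool.Agent.Loj
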