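import Pool.Agent.Work.MP_a2bf38_gt.J.LojB

/-!
# Hölder continuity of unordered tuples of vectors

Two `D`-tuples `z, z'` of vectors of `ℂ^m` with `∏ (T - u ⬝ z i)` and `∏ (T - u ⬝ z' i)` close for
all small `u` and `T` are close, up to a permutation.
-/

open MvPolynomial

namespace Pool.Agent.Loj

variable {m D : ℕ}

/-- `T - u ⬝ z i` as a polynomial in `(z, z')`, `b = false` for `z` and `b = true` for `z'` -/
noncomputable def mfac (D m : ℕ) (b : Bool) (u : Fin m → ℂ) (T : ℂ) (i : Fin D) :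
    MvPolynomial (Fin (2 * (D * m))) ℂ :=
  C T - ∑ k : Fin m, C (u k) * X (finProdFinEquiv (finTwoEquiv.symm b, finProdFinEquiv (i, k)))

/-- the difference of the products -/
noncomputable def mpol (D m : ℕ) (q : (Fin m → ℂ) × ℂ) : MvPolynomial (Fin (2 * (D * m))) ℂ :=
  ∏ i, mfac D m false q.1 q.2 i - ∏ i, mfac D m true q.1 q.2 i

/-- the vector of `ℂ^(2 D m)` of the two tuples -/
def mvec (z z' : Fin D → Fin m → ℂ) (l : Fin (2 * (D * m))) : ℂ :=
  if finTwoEquiv (finProdFinEquiv.symm l).1 then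
    z' (finProdFinEquiv.symm (finProdFinEquiv.symm l).2).1
      (finProdFinEquiv.symm (finProdFinEquiv.symm l).2).2
  else z (finProdFinEquiv.symm (finProdFinEquiv.symm l).2).1
      (finProdFinEquiv.symm (finProdFinEquiv.symm l).2).2

theorem mvec_false (z z' : Fin D → Fin m → ℂ) (i : Fin D) (k : Fin m) :
    mvec z z' (finProdFinEquiv (finTwoEquiv.symm false, finProdFinEquiv (i, k))) = z i k := by
  simp [mvec]

theorem mvec_true (z z' : Fin D → Fin m → ℂ) (i : Fin D) (k : Fin m) :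
    mvec z z' (finProdFinEquiv (finTwoEquiv.symm true, finProdFinEquiv (i, k))) = z' i k := by
  simp [mvec]

theorem eval_mpol (z z' : Fin D → Fin m → ℂ) (q : (Fin m → ℂ) × ℂ) :
    eval (mvec z z') (mpol D m q) =
      ∏ i, (q.2 - ∑ k, q.1 k * z i k) - ∏ i, (q.2 - ∑ k, q.1 k * z' i k) := by
  simp only [mpol, mfac, map_sub, map_prod, map_sum, map_mul, eval_C, eval_X, mvec_false, mvec_true]

/-- every vector of `ℂ^(2 D m)` is a pair of tuples -/
theorem exists_mvec (w : Fin (2 * (D * m)) → ℂ) : ∃ z z' : Fin D → Fin m → ℂ, w = mvec z z' := by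
  refine ⟨fun i k => w (finProdFinEquiv (finTwoEquiv.symm false, finProdFinEquiv (i, k))),
    fun i k => w (finProdFinEquiv (finTwoEquiv.symm true, finProdFinEquiv (i, k))), ?_⟩
  funext l
  obtain ⟨⟨b, l'⟩, rfl⟩ := finProdFinEquiv.surjective l
  obtain ⟨⟨i, k⟩, rfl⟩ := finProdFinEquiv.surjective l'
  obtain ⟨b, rfl⟩ := finTwoEquiv.symm.surjective b
  cases b
  · rw [mvec_false]
  · rw [mvec_true]

/-- a linear form `(1, t, t ^ 2, ...)`, `0 ≤ t ≤ 1`, which separates finitely many points -/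
theorem exists_separating (S : Finset (Fin m → ℂ)) : ∃ u : Fin m → ℂ, (∀ k, ‖u k‖ ≤ 1) ∧
    ∀ a ∈ S, ∀ b ∈ S, ∑ k, u k * a k = ∑ k, u k * b k → a = b := by
  classical
  -- the polynomials ∑ (a k - b k) X ^ k
  set P : (Fin m → ℂ) × (Fin m → ℂ) → Polynomial ℂ := fun q =>
    ∑ k : Fin m, Polynomial.C (q.1 k - q.2 k) * Polynomial.X ^ (k : ℕ) with hP
  have hcoeff : ∀ q, ∀ j : Fin m, (P q).coeff j = q.1 j - q.2 j := by
    intro q j
    rw [hP]
    simp only
    rw [Polynomial.finsetSum_coeff, Finset.sum_eq_single j]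
    · rw [Polynomial.coeff_C_mul_X_pow, if_pos rfl]
    · intro b _ hb
      rw [Polynomial.coeff_C_mul_X_pow, if_neg]
      intro h
      exact hb (Fin.ext h.symm)
    · simp
  set bad : Set ℂ := ⋃ q ∈ (S ×ˢ S).filter fun q => q.1 ≠ q.2, {t | (P q).eval t = 0} with hbad
  have hfin : bad.Finite := by
    rw [hbad]
    refine Set.Finite.biUnion (Finset.finite_toSet _) fun q hq => ?_
    have hq' : q.1 ≠ q.2 := (Finset.mem_filter.1 (Finset.mem_coe.1 hq)).2
    have hne : P q ≠ 0 := by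
      intro h0
      apply hq'
      funext j
      have := hcoeff q j
      rw [h0, Polynomial.coeff_zero] at this
      exact sub_eq_zero.1 this.symm
    refine ((P q).roots.toFinset.finite_toSet).subset fun t ht => ?_
    rw [Finset.mem_coe, Multiset.mem_toFinset, Polynomial.mem_roots hne]
    exact ht
  have hinf : (((↑) : ℝ → ℂ) '' Set.Icc (0 : ℝ) 1).Infinite :=
    (Set.Icc_infinite (zero_lt_one)).image Complex.ofReal_injective.injOn
  obtain ⟨t, ⟨τ, hτ, rfl⟩, htb⟩ := (hinf.sdiff hfin).nonempty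
  refine ⟨fun k => (τ : ℂ) ^ (k : ℕ), fun k => ?_, fun a ha b hb hab => ?_⟩
  · rw [norm_pow]
    refine pow_le_one₀ (norm_nonneg _) ?_
    rw [Complex.norm_real, Real.norm_eq_abs, abs_of_nonneg hτ.1]
    exact hτ.2
  · by_contra hne
    apply htb
    rw [hbad, Set.mem_iUnion₂]
    refine ⟨(a, b), Finset.mem_coe.1 (by simp [ha, hb, hne]), ?_⟩
    simp only [Set.mem_ofPred_eq, hP, Polynomial.eval_finsetSum, Polynomial.eval_mul,
      Polynomial.eval_C, Polynomial.eval_pow, Polynomial.eval_X]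
    rw [← sub_eq_zero] at hab
    rw [← hab, ← Finset.sum_sub_distrib]
    exact Finset.sum_congr rfl fun k _ => by ring

/-- two functions with the same multiset of values differ by a permutation -/
theorem exists_perm_of_map {ι γ : Type} [Fintype ι] (f g : ι → γ)
    (h : Multiset.map f Finset.univ.val = Multiset.map g Finset.univ.val) :
    ∃ σ : Equiv.Perm ι, ∀ i, f i = g (σ i) := by
  classical
  have hc : ∀ c, Fintype.card {a // f a = c} = Fintype.card {b // g b = c} := by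
    intro c
    have h1 := congrArg (Multiset.count c) h
    rw [Multiset.count_map, Multiset.count_map] at h1
    rw [Fintype.card_subtype, Fintype.card_subtype]
    convert h1 using 1
    · rw [← Finset.filter_val]
      exact congrArg Finset.card (Finset.filter_congr fun _ _ => eq_comm)
    · rw [← Finset.filter_val]
      exact congrArg Finset.card (Finset.filter_congr fun _ _ => eq_comm)
  refine ⟨Equiv.ofFiberEquiv (f := f) (g := g) fun c => Fintype.equivOfCardEq (hc c), fun i => ?_⟩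
  exact (Equiv.ofFiberEquiv_map _ i).symm

/-- tuples with the same products are equal up to a permutation -/
theorem exists_perm (z z' : Fin D → Fin m → ℂ)
    (h : ∀ (u : Fin m → ℂ) (T : ℂ), (∀ k, ‖u k‖ ≤ 1) → ‖T‖ ≤ 1 →
      ∏ i, (T - ∑ k, u k * z i k) = ∏ i, (T - ∑ k, u k * z' i k)) :
    ∃ σ : Equiv.Perm (Fin D), ∀ i, z i = z' (σ i) := by
  classical
  set S : Finset (Fin m → ℂ) := Finset.univ.image z ∪ Finset.univ.image z' with hS
  obtain ⟨u, hu, hsep⟩ := exists_separating S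
  set lam : (Fin m → ℂ) → ℂ := fun a => ∑ k, u k * a k with hlam
  have hpol : (∏ i, (Polynomial.X - Polynomial.C (lam (z i)))) =
      ∏ i, (Polynomial.X - Polynomial.C (lam (z' i))) := by
    apply Polynomial.eq_of_infinite_eval_eq
    have hinf : (((↑) : ℝ → ℂ) '' Set.Icc (0 : ℝ) 1).Infinite :=
      (Set.Icc_infinite (zero_lt_one)).image Complex.ofReal_injective.injOn
    refine hinf.mono ?_
    rintro _ ⟨τ, hτ, rfl⟩
    have hT : ‖(τ : ℂ)‖ ≤ 1 := by
      rw [Complex.norm_real, Real.norm_eq_abs, abs_of_nonneg hτ.1]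
      exact hτ.2
    simpa [Polynomial.eval_prod] using h u τ hu hT
  have hroots : (Finset.univ.val.map fun i => lam (z i)) =
      Finset.univ.val.map fun i => lam (z' i) := by
    have h1 := congrArg Polynomial.roots hpol
    rw [Finset.prod_eq_multiset_prod, Finset.prod_eq_multiset_prod] at h1
    have h2 : ∀ a : Fin D → ℂ, (Multiset.map (fun i => Polynomial.X - Polynomial.C (a i))
        Finset.univ.val).prod.roots = Multiset.map a Finset.univ.val := by
      intro a
      have := Polynomial.roots_multiset_prod_X_sub_C (Multiset.map a Finset.univ.val)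
      rw [Multiset.map_map] at this
      exact this
    rw [h2 (fun i => lam (z i)), h2 (fun i => lam (z' i))] at h1
    exact h1
  obtain ⟨σ, hσ⟩ := exists_perm_of_map _ _ hroots
  refine ⟨σ, fun i => ?_⟩
  refine hsep _ ?_ _ ?_ ?_
  · rw [hS]; exact Finset.mem_union_left _ (Finset.mem_image_of_mem _ (Finset.mem_univ i))
  · rw [hS]; exact Finset.mem_union_right _ (Finset.mem_image_of_mem _ (Finset.mem_univ _))
  · exact hσ i

/-- **Hölder continuity of unordered tuples of vectors.** -/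
theorem exists_match (D m : ℕ) (R : ℝ) : ∃ (C : ℝ) (α : ℝ), 0 < C ∧ 0 < α ∧ α ≤ 1 ∧
    ∀ (z z' : Fin D → Fin m → ℂ) (δ : ℝ), ‖z‖ ≤ R → ‖z'‖ ≤ R → 0 ≤ δ →
      (∀ (u : Fin m → ℂ) (T : ℂ), (∀ k, ‖u k‖ ≤ 1) → ‖T‖ ≤ 1 →
        ‖∏ i, (T - ∑ k, u k * z i k) - ∏ i, (T - ∑ k, u k * z' i k)‖ ≤ δ) →
      ∃ σ : Equiv.Perm (Fin D), ∀ i, ‖z i - z' (σ i)‖ ≤ C * δ ^ α := by
  classical
  -- finitely many of the products generate the ideal
  set I : Ideal (MvPolynomial (Fin (2 * (D * m))) ℂ) :=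
    Ideal.span (mpol D m '' {q | (∀ k, ‖q.1 k‖ ≤ 1) ∧ ‖q.2‖ ≤ 1}) with hI
  obtain ⟨S, hS, hSI⟩ : ∃ S : Finset (MvPolynomial (Fin (2 * (D * m))) ℂ),
      (S : Set (MvPolynomial (Fin (2 * (D * m))) ℂ)) ⊆
        mpol D m '' {q | (∀ k, ‖q.1 k‖ ≤ 1) ∧ ‖q.2‖ ≤ 1} ∧ Ideal.span (S : Set _) = I := by
    have hfg : (Submodule.span (MvPolynomial (Fin (2 * (D * m))) ℂ)
        (mpol D m '' {q | (∀ k, ‖q.1 k‖ ≤ 1) ∧ ‖q.2‖ ≤ 1})).FG := IsNoetherian.noetherian _
    obtain ⟨S, hS, hSI⟩ := (Submodule.fg_span_iff_fg_span_finset_subset _).1 hfg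
    exact ⟨S, hS, hSI.symm⟩
  obtain ⟨C, d, hC, hloj⟩ := loj_poly (ι := S)
    (fun f => (f : MvPolynomial (Fin (2 * (D * m))) ℂ)) R
  have hzero : ∀ w : Fin (2 * (D * m)) → ℂ, (∀ i : S, eval w (i : MvPolynomial _ ℂ) = 0) →
      ∀ f ∈ I, eval w f = 0 := by
    intro w hw f hf
    rw [← hSI] at hf
    have hle : Ideal.span (S : Set (MvPolynomial (Fin (2 * (D * m))) ℂ)) ≤
        RingHom.ker (eval w) := by
      rw [Ideal.span_le]
      intro g hg
      exact hw ⟨g, hg⟩
    exact hle hf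
  -- the exponent
  set α : ℝ := 1 / (d + 1 : ℝ) with hα
  have hd : (0 : ℝ) < d + 1 := by positivity
  have hα0 : 0 < α := by positivity
  have hα1 : α ≤ 1 := by
    rw [hα, div_le_one hd]
    have : (0 : ℝ) ≤ d := Nat.cast_nonneg d
    linarith
  refine ⟨(2 * C + 2 * |R|) * C ^ α + 1, α, ?_, hα0, hα1, ?_⟩
  · have : 0 ≤ (2 * C + 2 * |R|) * C ^ α := by positivity
    linarith
  intro z z' δ hz hz' hδ h
  rcases hδ.eq_or_lt with rfl | hδ
  · obtain ⟨σ, hσ⟩ := exists_perm z z' (fun u T hu hT => by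
      have := h u T hu hT
      exact sub_eq_zero.1 (norm_le_zero_iff.1 this))
    refine ⟨σ, fun i => ?_⟩
    rw [hσ i, sub_self, norm_zero, Real.zero_rpow hα0.ne', mul_zero]
  set ε : ℝ := (C * δ) ^ α with hε
  have hε0 : 0 < ε := by positivity
  have hεeq : ε = C ^ α * δ ^ α := by rw [hε, Real.mul_rpow hC.le hδ.le]
  have hδα : 0 < δ ^ α := Real.rpow_pos_of_pos hδ α
  by_cases hε1 : 1 < ε
  · -- trivial case
    refine ⟨1, fun i => ?_⟩
    have h1 : ‖z i - z' i‖ ≤ 2 * |R| := by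
      have a1 : ‖z i‖ ≤ |R| := (norm_le_pi_norm z i).trans (hz.trans (le_abs_self R))
      have a2 : ‖z' i‖ ≤ |R| := (norm_le_pi_norm z' i).trans (hz'.trans (le_abs_self R))
      exact (norm_sub_le _ _).trans (by linarith)
    calc ‖z i - z' ((1 : Equiv.Perm (Fin D)) i)‖ ≤ 2 * |R| := h1
      _ ≤ 2 * |R| * ε := le_mul_of_one_le_right (by positivity) hε1.le
      _ = 2 * |R| * C ^ α * δ ^ α := by rw [hεeq]; ring
      _ ≤ ((2 * C + 2 * |R|) * C ^ α + 1) * δ ^ α := by
          refine mul_le_mul_of_nonneg_right ?_ hδα.le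
          have : 0 ≤ 2 * C * C ^ α := by positivity
          nlinarith
  push Not at hε1
  have hwR : ‖mvec z z'‖ ≤ R := by
    have hR : 0 ≤ R := (norm_nonneg z).trans hz
    rw [pi_norm_le_iff_of_nonneg hR]
    intro l
    unfold mvec
    split_ifs
    · exact ((norm_le_pi_norm _ _).trans (norm_le_pi_norm z' _)).trans hz'
    · exact ((norm_le_pi_norm _ _).trans (norm_le_pi_norm z _)).trans hz
  obtain ⟨w, hw, hw'⟩ := hloj (mvec z z') hwR ε hε0 hε1 (by
    rintro ⟨f, hf⟩
    obtain ⟨q, hq, rfl⟩ := hS hf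
    rw [eval_mpol]
    have h1 := h q.1 q.2 hq.1 hq.2
    have h2 : C * δ = ε ^ (d + 1) := by
      rw [hε, ← Real.rpow_natCast, ← Real.rpow_mul (by positivity), hα]
      push_cast
      rw [one_div, inv_mul_cancel₀ hd.ne', Real.rpow_one]
    calc C * _ ≤ C * δ := mul_le_mul_of_nonneg_left h1 hC.le
      _ = ε ^ (d + 1) := h2
      _ ≤ ε ^ d := pow_le_pow_of_le_one hε0.le hε1 (Nat.le_succ d))
  obtain ⟨a, a', rfl⟩ := exists_mvec w
  obtain ⟨σ, hσ⟩ := exists_perm a a' (fun u T hu hT => by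
    have := hzero _ hw (mpol D m (u, T)) (Ideal.subset_span ⟨(u, T), ⟨hu, hT⟩, rfl⟩)
    rw [eval_mpol] at this
    exact sub_eq_zero.1 this)
  have hCε : 0 ≤ C * ε := by positivity
  have hb : ∀ i, ‖z i - a i‖ ≤ C * ε := by
    intro i
    rw [pi_norm_le_iff_of_nonneg hCε]
    intro k
    have := (norm_le_pi_norm (mvec z z' - mvec a a')
      (finProdFinEquiv (finTwoEquiv.symm false, finProdFinEquiv (i, k)))).trans hw'
    rwa [Pi.sub_apply, mvec_false, mvec_false] at this
  have hb' : ∀ i, ‖z' i - a' i‖ ≤ C * ε := by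
    intro i
    rw [pi_norm_le_iff_of_nonneg hCε]
    intro k
    have := (norm_le_pi_norm (mvec z z' - mvec a a')
      (finProdFinEquiv (finTwoEquiv.symm true, finProdFinEquiv (i, k)))).trans hw'
    rwa [Pi.sub_apply, mvec_true, mvec_true] at this
  refine ⟨σ, fun i => ?_⟩
  calc ‖z i - z' (σ i)‖ = ‖(z i - a i) - (z' (σ i) - a' (σ i))‖ := by rw [hσ i]; congr 1; abel
    _ ≤ C * ε + C * ε := (norm_sub_le _ _).trans (add_le_add (hb i) (hb' _))
    _ = 2 * C * C ^ α * δ ^ α := by rw [hεeq]; ring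
    _ ≤ ((2 * C + 2 * |R|) * C ^ α + 1) * δ ^ α := by
        refine mul_le_mul_of_nonneg_right ?_ hδα.le
        have : 0 ≤ 2 * |R| * C ^ α := by positivity
        nlinarith

end Pool.Agent.Loj
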